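import Pool.Agent.U398.MV.Stm6
import Pool.Agent.U492.MV4.LW

set_option autoImplicit false

/-!
# Project MV6 (helper398), package LWF: means over long windows, far shifts (helper390)

Adapted from `Pool.Agent.U492.MV4.LW` (helper492).
-/

namespace Pool.Agent.U390.MV6

open MeasureTheory Filter Topology Set Pool.Agent.U398.MV Pool.Agent.U492.MV4

noncomputable section

theorem t_LWF : S_LWF := by
  intro N g C1 hC hN hMom hMF k
  obtain ⟨hM1, -⟩ := hMom
  obtain ⟨-, hF2, hF3, hF4⟩ := hMF
  have hpi := Real.pi_pos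
  have hpi3 := Real.pi_gt_three
  have hpi4 := Real.pi_lt_d2
  obtain ⟨Ca, Ta, hCa, hTa, ha⟩ := hF3 k
  obtain ⟨Cb, Tb, hCb, hTb, hb⟩ := hM1 1 (2 * Real.pi)
  obtain ⟨Cc, Tc, hCc, hTc, hcc⟩ := hF2 k
  obtain ⟨A, Td, hA, hTd, hd⟩ := hF4
  have hl8 : 0 ≤ Real.log 8 := Real.log_nonneg (by norm_num)
  set C2 : ℝ := Ca with hC2
  set C3 : ℝ := Cb * (1 + Real.log 8) with hC3
  have hC20 : 0 < C2 := by positivity
  have hC30 : 0 < C3 := by positivity
  set C0 : ℝ := 2 * (2 * C1) ^ k * (14 + 4 * C1) * ((k + 1).factorial : ℝ) * (1 + A) with hC0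
  have hC00 : 0 ≤ C0 := by positivity
  refine ⟨C0 + (C2 + 1) * (1 + A) + (C2 + C3) + Cc, max (max 40 Td) (max Ta (max Tb Tc)), by positivity,
    le_trans (by norm_num) ((le_max_left (40 : ℝ) _).trans (le_max_left _ _)), ?_⟩
  intro T hT K hK hKL m c x hadm
  have hT40 : 40 ≤ T := ((le_max_left _ _).trans (le_max_left _ _)).trans hT
  have hT20 : 20 ≤ T := by linarith
  have hTTd : Td ≤ T := ((le_max_right _ _).trans (le_max_left _ _)).trans hT
  have hTTa : Ta ≤ T := ((le_max_left _ _).trans (le_max_right _ _)).trans hT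
  have hTTb : Tb ≤ T := (((le_max_left _ _).trans (le_max_right _ _)).trans (le_max_right _ _)).trans hT
  have hTTc : Tc ≤ T := (((le_max_right _ _).trans (le_max_right _ _)).trans (le_max_right _ _)).trans hT
  have hT0 : 0 < T := by linarith
  have hVd := hd T hTTd m c x hadm
  have hc := hadm.1
  have hc0 := hadm.2.1
  set L : ℝ := Real.log T with hL
  have hL2 : 2 ≤ L := by
    rw [hL, Real.le_log_iff_exp_le hT0]
    have h1 := Real.exp_one_lt_d9
    have h2 : Real.exp 2 = Real.exp 1 * Real.exp 1 := by rw [← Real.exp_add]; norm_num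
    rw [h2]
    nlinarith [Real.exp_pos 1]
  have hL1 : 1 ≤ L := by linarith
  have hL0 : 0 < L := by linarith
  have hK1 : (1 : ℝ) ≤ K := by exact_mod_cast hK
  set Q : ℝ := 1 + |Vh T c x| with hQ
  have hQ1 : 1 ≤ Q := by
    have := abs_nonneg (Vh T c x)
    linarith
  have hQ0 : 0 < Q := by linarith
  have hQL : Q ≤ (1 + A) * L := by
    have h1 : Real.log L ≤ L := (Real.log_le_sub_one_of_pos hL0).trans (by linarith)
    have h2 : A * Real.log L ≤ A * L := mul_le_mul_of_nonneg_left h1 hA.le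
    linarith
  set W : ℝ := 2 * Real.pi * K / L with hW
  have hW0 : 0 < W := by positivity
  have hW2 : W ≤ 2 * Real.pi := by
    rw [hW, div_le_iff₀ hL0]
    exact mul_le_mul_of_nonneg_left hKL (by positivity)
  have hWL : W * L = 2 * Real.pi * K := by rw [hW]; field_simp
  have hW4 : 4 * W ≤ T := by linarith
  have hWT : 2 * W ≤ T := by linarith
  have hxs : ∀ i, |x i| ≤ T / 8 := by
    intro i
    refine (hadm.2.2 i).trans ?_
    rw [← hL]
    apply div_le_div_of_nonneg_left hT0.le (by norm_num)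
    calc (8 : ℝ) = 2 ^ 3 := by norm_num
      _ ≤ L ^ 3 := pow_le_pow_left₀ (by norm_num) hL2 3
  set G : ℝ → ℝ := Gf N c x with hG
  have hGm : Measurable G := Gfm hN c x
  have hGb : ∀ t, 3 * T / 4 ≤ t → t ≤ 3 * T → |G t| ≤ 2 * C1 * L := by
    intro t h1 h2
    rw [hG]
    unfold Gf
    have hL' : 0 ≤ 2 * C1 * L := by positivity
    calc |∑ i, c i * sg N (t + x i)| ≤ ∑ i, |c i * sg N (t + x i)| := Finset.abs_sum_le_sum_abs _ _
      _ ≤ ∑ i, |c i| * (2 * C1 * L) := by
          refine Finset.sum_le_sum fun i _ => ?_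
          rw [abs_mul]
          have h3 := abs_le.1 (hxs i)
          refine mul_le_mul_of_nonneg_left (sgb hC hN hT20 ?_ ?_) (abs_nonneg _)
          · linarith [h3.1]
          · linarith [h3.2]
      _ = (∑ i, |c i|) * (2 * C1 * L) := by rw [Finset.sum_mul]
      _ ≤ 1 * (2 * C1 * L) := mul_le_mul_of_nonneg_right hc hL'
      _ = _ := one_mul _
  -- step 1
  set D : ℝ → ℝ := fun t => (N (t + W) : ℝ) - N t with hD
  have hDeq : ∀ t, D t = (Mf (t + W) - Mf t) + (sg N (t + W) - sg N t) := by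
    intro t
    simp only [hD, sg]
    ring
  have hDb : ∀ t, T - W ≤ t → t ≤ 2 * T → D t ≤ (14 + 4 * C1) * L := by
    intro t h1 h2
    rw [hDeq]
    have h3 := (abs_le.1 (Mf_inc (T := T) (t := t) (W := W) (by linarith) (by linarith) (by linarith) hW0.le)).2
    have h4 := sgb hC hN hT20 (t := t + W) (by linarith) (by linarith)
    have h5 := sgb hC hN hT20 (t := t) (by linarith) (by linarith)
    have h6 : W * (L / (2 * Real.pi)) = K := by
      rw [hW]; field_simp
    rw [← hL] at h3 h4 h5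
    rw [h6] at h3
    have h7 := (abs_le.1 h4).2
    have h8 := (abs_le.1 h5).1
    nlinarith
  have hstep1 := PA_eq hN (T := T) (W := W) (Mb := (2 * C1 * L) ^ k) (Db := (14 + 4 * C1) * L) hW0 hWT
    (by positivity) (f := fun t => G t ^ k) (hGm.pow_const _) (fun t h1 h2 => by
      rw [abs_pow]
      exact pow_le_pow_left₀ (abs_nonneg _) (hGb t (by linarith) (by linarith)) _) hDb
  -- second step
  set lam : ℝ := Q ^ ((k : ℝ) / 2) with hlam
  have hlam0 : 0 < lam := Real.rpow_pos_of_pos hQ0 _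
  have hlam2 : lam * lam = Q ^ k := by
    rw [hlam, ← Real.rpow_add hQ0, ← Real.rpow_natCast]
    congr 1
    ring
  set P : ℝ := Q ^ (((k : ℝ) - 1) / 2) with hP
  have hP0 : 0 < P := Real.rpow_pos_of_pos hQ0 _
  have hlamP : lam ≤ P * ((1 + A) * L) := by
    have h1 : lam = P * Q ^ (1 / 2 : ℝ) := by
      rw [hlam, hP, ← Real.rpow_add hQ0]
      congr 1
      ring
    have h2 : Q ^ (1 / 2 : ℝ) ≤ Q := by
      calc Q ^ (1 / 2 : ℝ) ≤ Q ^ (1 : ℝ) := Real.rpow_le_rpow_of_exponent_le hQ1 (by norm_num)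
        _ = Q := Real.rpow_one _
    rw [h1]
    exact mul_le_mul_of_nonneg_left (h2.trans hQL) hP0.le
  have hPlow : 1 ≤ P * ((1 + A) * L) := by
    have h1 : Q ^ (-1 : ℝ) ≤ P := by
      rw [hP]
      apply Real.rpow_le_rpow_of_exponent_le hQ1
      have : (0 : ℝ) ≤ k := Nat.cast_nonneg _
      linarith
    rw [Real.rpow_neg_one] at h1
    calc (1 : ℝ) = Q⁻¹ * Q := (inv_mul_cancel₀ hQ0.ne').symm
      _ ≤ P * ((1 + A) * L) := mul_le_mul h1 hQL hQ0.le hP0.le
  set ℓ : ℝ := 1 + Real.log (1 + K) with hℓ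
  have hℓ1 : 1 ≤ ℓ := by
    have := Real.log_nonneg (by linarith : (1 : ℝ) ≤ 1 + K)
    linarith
  have hDm : Measurable D := ((Nm hN).comp (measurable_id.add_const W)).sub (Nm hN)
  have hG2 : (∫ t in T..(2 * T), G t ^ (2 * k)) ≤ C2 * T * Q ^ k := by
    have hi : IntervalIntegrable (fun t => G t ^ (2 * k)) volume (3 * T / 4) (3 * T) :=
      iib (hGm.pow_const _) (by linarith) (M := (2 * C1 * L) ^ (2 * k)) fun t h1 h2 => by
        rw [abs_pow]; exact pow_le_pow_left₀ (abs_nonneg _) (hGb t h1 h2) _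
    have h3 : (∫ t in T..(2 * T), G t ^ (2 * k)) ≤ ∫ t in (3 * T / 4)..(3 * T), G t ^ (2 * k) := by
      refine intervalIntegral.integral_mono_interval (by linarith) (by linarith) (by linarith) ?_ hi
      exact Eventually.of_forall fun t => by
        show (0 : ℝ) ≤ G t ^ (2 * k)
        rw [pow_mul]
        positivity
    exact h3.trans (ha T hTTa m c x hadm)
  have hΔ : (∫ t in T..(2 * T), (sg N (t + W) - sg N t) ^ 2) ≤ C3 * T * ℓ := by
    have hm2 : Measurable fun t => (sg N (t + W) - sg N t) ^ 2 :=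
      (((sgm hN).comp (measurable_id.add_const W)).sub (sgm hN)).pow_const _
    have hi : IntervalIntegrable (fun t => (sg N (t + W) - sg N t) ^ 2) volume (3 * T / 4) (3 * T) := by
      refine iib hm2 (by linarith) (M := (4 * C1 * L) ^ 2) fun t h1 h2 => ?_
      rw [abs_pow]
      apply pow_le_pow_left₀ (abs_nonneg _)
      have h3 := sgb hC hN hT20 (t := t + W) (by linarith) (by linarith)
      have h4 := sgb hC hN hT20 (t := t) (by linarith) (by linarith)
      refine (abs_sub _ _).trans ?_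
      linarith
    have h3 : (∫ t in T..(2 * T), (sg N (t + W) - sg N t) ^ 2) ≤
        ∫ t in (3 * T / 4)..(3 * T), (sg N (t + W) - sg N t) ^ 2 := by
      refine intervalIntegral.integral_mono_interval (by linarith) (by linarith) (by linarith) ?_ hi
      exact Eventually.of_forall fun t => sq_nonneg _
    have h4 := hb T hTTb W 0 (by
      rw [abs_of_pos hW0]
      exact hW2) (by rw [abs_zero]; positivity)
    simp only [add_zero, mul_one, pow_one, sub_zero] at h4
    refine h3.trans (h4.trans ?_)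
    rw [abs_of_pos hW0, ← hL, hWL, hC3]
    have h5 : 1 + Real.log (1 + 2 * Real.pi * K) ≤ (1 + Real.log 8) * ℓ := by
      have h6 : Real.log (1 + 2 * Real.pi * K) ≤ Real.log (8 * (1 + K)) :=
        Real.log_le_log (by positivity) (by nlinarith)
      rw [Real.log_mul (by norm_num) (by positivity)] at h6
      nlinarith [mul_nonneg hl8 (by linarith : (0 : ℝ) ≤ ℓ - 1)]
    calc Cb * T * (1 + Real.log (1 + 2 * Real.pi * K)) ≤ Cb * T * ((1 + Real.log 8) * ℓ) :=
          mul_le_mul_of_nonneg_left h5 (by positivity)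
      _ = _ := by ring
  have hΔm : Measurable fun t => sg N (t + W) - sg N t :=
    ((sgm hN).comp (measurable_id.add_const W)).sub (sgm hN)
  -- integrability on `[T, 2T]`
  have hGb' : ∀ t, T ≤ t → t ≤ 2 * T → |G t| ≤ 2 * C1 * L := fun t h1 h2 => hGb t (by linarith) (by linarith)
  have hΔb : ∀ t, T ≤ t → t ≤ 2 * T → |sg N (t + W) - sg N t| ≤ 4 * C1 * L := by
    intro t h1 h2
    have h3 := sgb hC hN hT20 (t := t + W) (by linarith) (by linarith)
    have h4 := sgb hC hN hT20 (t := t) (by linarith) (by linarith)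
    refine (abs_sub _ _).trans ?_
    linarith
  have hDb' : ∀ t, T ≤ t → t ≤ 2 * T → |D t| ≤ (14 + 4 * C1) * L := by
    intro t h1 h2
    have h3 := hDb t (by linarith) h2
    have h4 : 0 ≤ D t := by
      have : N t ≤ N (t + W) := hN.mono (by linarith)
      have h : (N t : ℝ) ≤ N (t + W) := by exact_mod_cast this
      simp only [hD]
      linarith
    rw [abs_of_nonneg h4]
    exact h3
  have iG : IntervalIntegrable (fun t => G t ^ k) volume T (2 * T) :=
    iib (hGm.pow_const _) (by linarith) (M := (2 * C1 * L) ^ k) fun t h1 h2 => by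
      rw [abs_pow]; exact pow_le_pow_left₀ (abs_nonneg _) (hGb' t h1 h2) _
  have iG2 : IntervalIntegrable (fun t => G t ^ (2 * k)) volume T (2 * T) :=
    iib (hGm.pow_const _) (by linarith) (M := (2 * C1 * L) ^ (2 * k)) fun t h1 h2 => by
      rw [abs_pow]; exact pow_le_pow_left₀ (abs_nonneg _) (hGb' t h1 h2) _
  have iD : IntervalIntegrable (fun t => G t ^ k * D t) volume T (2 * T) :=
    iib (f := fun t => G t ^ k * D t) ((hGm.pow_const _).mul hDm) (by linarith)
      (M := (2 * C1 * L) ^ k * ((14 + 4 * C1) * L)) fun t h1 h2 => by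
      rw [abs_mul, abs_pow]
      exact mul_le_mul (pow_le_pow_left₀ (abs_nonneg _) (hGb' t h1 h2) _) (hDb' t h1 h2) (abs_nonneg _) (by positivity)
  have iΔ : IntervalIntegrable (fun t => (sg N (t + W) - sg N t) ^ 2) volume T (2 * T) :=
    iib (hΔm.pow_const _) (by linarith) (M := (4 * C1 * L) ^ 2) fun t h1 h2 => by
      rw [abs_pow]; exact pow_le_pow_left₀ (abs_nonneg _) (hΔb t h1 h2) _
  have hstep2 : |(1 / W * ∫ t in T..(2 * T), G t ^ k * D t) - L / (2 * Real.pi) * ∫ t in T..(2 * T), G t ^ k| ≤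
      lam * T * (C2 + 1) + L / K * (lam * T * ((C2 + C3) * ℓ)) := by
    have e1 : (1 / W * ∫ t in T..(2 * T), G t ^ k * D t) - L / (2 * Real.pi) * ∫ t in T..(2 * T), G t ^ k =
        1 / W * ∫ t in T..(2 * T), (G t ^ k * D t - W * (L / (2 * Real.pi)) * G t ^ k) := by
      rw [intervalIntegral.integral_sub iD (iG.const_mul _), intervalIntegral.integral_const_mul]
      field_simp
    rw [e1, abs_mul, abs_of_pos (by positivity : 0 < 1 / W)]
    set F : ℝ → ℝ := fun t => W * (G t ^ (2 * k) / lam + lam) +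
      1 / 2 * (G t ^ (2 * k) / lam + lam * (sg N (t + W) - sg N t) ^ 2) with hF
    have iF : IntervalIntegrable F volume T (2 * T) :=
      ((((iG2.div_const lam).add intervalIntegrable_const)).const_mul W).add
        (((iG2.div_const lam).add (iΔ.const_mul lam)).const_mul (1 / 2))
    have hpt : ∀ t ∈ Ioc T (2 * T), ‖G t ^ k * D t - W * (L / (2 * Real.pi)) * G t ^ k‖ ≤ F t := by
      intro t ht
      have h3 := Mf_inc (T := T) (t := t) (W := W) (by linarith) (by linarith [ht.1]) (by linarith [ht.2]) hW0.le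
      rw [← hL] at h3
      have e2 : G t ^ k * D t - W * (L / (2 * Real.pi)) * G t ^ k =
          G t ^ k * ((Mf (t + W) - Mf t - W * (L / (2 * Real.pi))) + (sg N (t + W) - sg N t)) := by
        rw [hDeq]; ring
      rw [e2, Real.norm_eq_abs, abs_mul]
      have h4 : |(Mf (t + W) - Mf t - W * (L / (2 * Real.pi))) + (sg N (t + W) - sg N t)| ≤
          2 * W + |sg N (t + W) - sg N t| := (abs_add_le _ _).trans (by linarith)
      have h5 : |G t ^ k| ^ 2 = G t ^ (2 * k) := by
        rw [sq_abs, ← pow_mul, mul_comm]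
      set u : ℝ := |G t ^ k| with hu
      have hu0 : 0 ≤ u := abs_nonneg _
      set v : ℝ := |sg N (t + W) - sg N t| with hv
      have hv2 : v ^ 2 = (sg N (t + W) - sg N t) ^ 2 := sq_abs _
      have h6 : u ≤ 1 / 2 * (u ^ 2 / lam + lam) := by
        have h7 : 0 ≤ (u - lam) ^ 2 / lam := by positivity
        have h8 : (u - lam) ^ 2 / lam = u ^ 2 / lam - 2 * u + lam := by field_simp; ring
        linarith
      have h9 : u * v ≤ 1 / 2 * (u ^ 2 / lam + lam * v ^ 2) := by
        have h7 : 0 ≤ (u - lam * v) ^ 2 / lam := by positivity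
        have h8 : (u - lam * v) ^ 2 / lam = u ^ 2 / lam - 2 * (u * v) + lam * v ^ 2 := by field_simp; ring
        linarith
      calc u * |(Mf (t + W) - Mf t - W * (L / (2 * Real.pi))) + (sg N (t + W) - sg N t)| ≤ u * (2 * W + v) :=
            mul_le_mul_of_nonneg_left h4 hu0
        _ = 2 * W * u + u * v := by ring
        _ ≤ 2 * W * (1 / 2 * (u ^ 2 / lam + lam)) + 1 / 2 * (u ^ 2 / lam + lam * v ^ 2) :=
            add_le_add (mul_le_mul_of_nonneg_left h6 (by positivity)) h9
        _ = F t := by simp only [hF, ← h5, ← hv2]; ring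
    have h10 : |∫ t in T..(2 * T), (G t ^ k * D t - W * (L / (2 * Real.pi)) * G t ^ k)| ≤ ∫ t in T..(2 * T), F t := by
      have := intervalIntegral.norm_integral_le_of_norm_le (by linarith : T ≤ 2 * T)
        (Eventually.of_forall hpt) iF
      exact this
    have h11 : ∫ t in T..(2 * T), F t = W * ((∫ t in T..(2 * T), G t ^ (2 * k)) / lam + T * lam) +
        1 / 2 * ((∫ t in T..(2 * T), G t ^ (2 * k)) / lam + lam * ∫ t in T..(2 * T), (sg N (t + W) - sg N t) ^ 2) := by
      simp only [hF]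
      rw [intervalIntegral.integral_add ((((iG2.div_const lam).add intervalIntegrable_const)).const_mul W)
        (((iG2.div_const lam).add (iΔ.const_mul lam)).const_mul (1 / 2)),
        intervalIntegral.integral_const_mul, intervalIntegral.integral_const_mul,
        intervalIntegral.integral_add (iG2.div_const lam) intervalIntegrable_const,
        intervalIntegral.integral_add (iG2.div_const lam) (iΔ.const_mul lam),
        intervalIntegral.integral_div, intervalIntegral.integral_const_mul, intervalIntegral.integral_const, smul_eq_mul]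
      ring
    have h12 : (∫ t in T..(2 * T), G t ^ (2 * k)) / lam ≤ C2 * T * lam := by
      rw [div_le_iff₀ hlam0, mul_assoc (C2 * T), hlam2]
      exact hG2
    have h13 : ∫ t in T..(2 * T), F t ≤ W * (lam * T * (C2 + 1)) + 1 / 2 * (lam * T * ((C2 + C3) * ℓ)) := by
      rw [h11]
      have h14 : lam * (∫ t in T..(2 * T), (sg N (t + W) - sg N t) ^ 2) ≤ lam * (C3 * T * ℓ) :=
        mul_le_mul_of_nonneg_left hΔ hlam0.le
      have h15 : C2 * T * lam ≤ C2 * T * lam * ℓ := le_mul_of_one_le_right (by positivity) hℓ1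
      refine add_le_add (mul_le_mul_of_nonneg_left ?_ hW0.le) (mul_le_mul_of_nonneg_left ?_ (by norm_num))
      · linarith
      · linarith
    calc 1 / W * |∫ t in T..(2 * T), (G t ^ k * D t - W * (L / (2 * Real.pi)) * G t ^ k)| ≤
        1 / W * (W * (lam * T * (C2 + 1)) + 1 / 2 * (lam * T * ((C2 + C3) * ℓ))) :=
          mul_le_mul_of_nonneg_left (h10.trans h13) (by positivity)
      _ = lam * T * (C2 + 1) + 1 / (2 * W) * (lam * T * ((C2 + C3) * ℓ)) := by field_simp
      _ ≤ lam * T * (C2 + 1) + L / K * (lam * T * ((C2 + C3) * ℓ)) := by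
          have h16 : 1 / (2 * W) ≤ L / K := by
            rw [hW, div_le_div_iff₀ (by positivity) (by positivity)]
            have e3 : L * (2 * (2 * Real.pi * K / L)) = 4 * Real.pi * K := by field_simp; ring
            rw [e3]
            nlinarith
          have h17 : 0 ≤ lam * T * ((C2 + C3) * ℓ) := by positivity
          have := mul_le_mul_of_nonneg_right h16 h17
          linarith
  -- third step
  have hstep3 : |L / (2 * Real.pi) * (∫ t in T..(2 * T), G t ^ k) - T * L / (2 * Real.pi) * gM k (Vh T c x)| ≤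
      Cc * (T * L) * P := by
    have h1 := hcc T hTTc m c x hadm
    rw [← hG] at h1
    have e1 : L / (2 * Real.pi) * (∫ t in T..(2 * T), G t ^ k) - T * L / (2 * Real.pi) * gM k (Vh T c x) =
        T * L / (2 * Real.pi) * (1 / T * (∫ t in T..(2 * T), G t ^ k) - gM k (Vh T c x)) := by
      field_simp
    rw [e1, abs_mul, abs_of_pos (by positivity : 0 < T * L / (2 * Real.pi))]
    have h2 : T * L / (2 * Real.pi) ≤ T * L := div_le_self (by positivity) (by linarith)
    calc T * L / (2 * Real.pi) * |1 / T * (∫ t in T..(2 * T), G t ^ k) - gM k (Vh T c x)| ≤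
        (T * L) * (Cc * P) := mul_le_mul h2 h1 (abs_nonneg _) (by positivity)
      _ = _ := by ring
  -- the edges
  have hedge : 2 * ((2 * C1 * L) ^ k * ((14 + 4 * C1) * L)) ≤ C0 * (T * L) * P := by
    have h1 : L ^ (k + 1) ≤ ((k + 1).factorial : ℝ) * T := by
      have h2 := Real.pow_div_factorial_le_exp L hL0.le (k + 1)
      rw [hL, Real.exp_log hT0, ← hL, div_le_iff₀ (by positivity)] at h2
      linarith
    have h3 : T ≤ (1 + A) * (T * L * P) := by
      have h4 := mul_le_mul_of_nonneg_left hPlow hT0.le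
      calc T = T * 1 := (mul_one T).symm
        _ ≤ T * (P * ((1 + A) * L)) := h4
        _ = _ := by ring
    calc 2 * ((2 * C1 * L) ^ k * ((14 + 4 * C1) * L)) = 2 * (2 * C1) ^ k * (14 + 4 * C1) * L ^ (k + 1) := by
          rw [mul_pow, pow_succ L k]; ring
      _ ≤ 2 * (2 * C1) ^ k * (14 + 4 * C1) * (((k + 1).factorial : ℝ) * ((1 + A) * (T * L * P))) :=
          mul_le_mul_of_nonneg_left (h1.trans (mul_le_mul_of_nonneg_left h3 (by positivity))) (by positivity)
      _ = _ := by rw [hC0]; ring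
  -- end
  have hfin : |PA N g T W (fun _ t => G t ^ k) - T * L / (2 * Real.pi) * gM k (Vh T c x)| ≤
      C0 * (T * L) * P + (lam * T * (C2 + 1) + L / K * (lam * T * ((C2 + C3) * ℓ))) + Cc * (T * L) * P := by
    have e1 : PA N g T W (fun _ t => G t ^ k) - T * L / (2 * Real.pi) * gM k (Vh T c x) =
        (PA N g T W (fun _ t => G t ^ k) - 1 / W * ∫ t in T..(2 * T), G t ^ k * D t) +
        ((1 / W * ∫ t in T..(2 * T), G t ^ k * D t) - L / (2 * Real.pi) * ∫ t in T..(2 * T), G t ^ k) +
        (L / (2 * Real.pi) * (∫ t in T..(2 * T), G t ^ k) - T * L / (2 * Real.pi) * gM k (Vh T c x)) := by ring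
    rw [e1]
    refine (abs_add_le _ _).trans (add_le_add ((abs_add_le _ _).trans (add_le_add (hstep1.trans hedge) hstep2)) hstep3)
  refine hfin.trans ?_
  have hT2 : lam * T * (C2 + 1) ≤ (C2 + 1) * (1 + A) * (T * L) * P := by
    have := mul_le_mul_of_nonneg_left hlamP (by positivity : 0 ≤ T * (C2 + 1))
    calc lam * T * (C2 + 1) = T * (C2 + 1) * lam := by ring
      _ ≤ T * (C2 + 1) * (P * ((1 + A) * L)) := this
      _ = _ := by ring
  have hT3 : L / K * (lam * T * ((C2 + C3) * ℓ)) = (C2 + C3) * (T * L) * (lam * ℓ / K) := by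
    field_simp
  rw [hT3]
  have hX : 0 ≤ lam * ℓ / K := by positivity
  have hTL : 0 < T * L := by positivity
  have hf1 : 0 ≤ (C2 + C3) * (T * L) * P := by positivity
  have hf2 : 0 ≤ (C0 + (C2 + 1) * (1 + A) + Cc) * (T * L) * (lam * ℓ / K) := by positivity
  calc C0 * (T * L) * P + (lam * T * (C2 + 1) + (C2 + C3) * (T * L) * (lam * ℓ / K)) + Cc * (T * L) * P ≤
      C0 * (T * L) * P + ((C2 + 1) * (1 + A) * (T * L) * P + (C2 + C3) * (T * L) * (lam * ℓ / K)) + Cc * (T * L) * P +
        (C2 + C3) * (T * L) * P + (C0 + (C2 + 1) * (1 + A) + Cc) * (T * L) * (lam * ℓ / K) := by linarith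
    _ = (C0 + (C2 + 1) * (1 + A) + (C2 + C3) + Cc) * (T * L) * (P + lam * ℓ / K) := by ring

end

end Pool.Agent.U390.MV6
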